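import Mathlib.AlgebraicGeometry.Morphisms.Smooth
import Mathlib.AlgebraicGeometry.Morphisms.Separated
import Mathlib.AlgebraicGeometry.ResidueField
import Mathlib.FieldTheory.RatFunc.Basic
import Mathlib.FieldTheory.Separable
import Mathlib.RingTheory.AdjoinRoot
import Mathlib.LinearAlgebra.Dimension.Basic
import Mathlib.Algebra.Field.ZMod

/-!
# Integral motivic cohomology of fields: definitions
-/

set_option autoImplicit false

open CategoryTheory AlgebraicGeometry

universe v

namespace Pool.Agent.X308.C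

/-- The data of a bigraded cohomology theory of schemes: groups `H X i n` (for the integral motivic
cohomology: `H^i(X, ℤ(n))`) and pull-back maps. -/
structure MotivicData where
  /-- the group `H^i(X, ℤ(n))` -/
  H : Scheme.{0} → ℤ → ℤ → Type v
  [group : ∀ X i n, AddCommGroup (H X i n)]
  /-- the pull-back maps -/
  map : ∀ {X Y : Scheme.{0}}, (X ⟶ Y) → ∀ i n : ℤ, H Y i n →+ H X i n

attribute [instance] MotivicData.group

variable (M : MotivicData.{v})

/-- `H^i(R, ℤ(n))` for a commutative ring `R`. -/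
abbrev MotivicData.Ring (R : Type) [CommRing R] (i n : ℤ) : Type v :=
  M.H (Spec (CommRingCat.of R)) i n

/-- The map `H^i(R, ℤ(n)) → H^i(S, ℤ(n))` induced by a homomorphism `R → S`. -/
noncomputable def MotivicData.pull {R S : Type} [CommRing R] [CommRing S] (φ : R →+* S)
    (i n : ℤ) : M.Ring R i n →+ M.Ring S i n :=
  M.map (Spec.map (CommRingCat.ofHom φ)) i n

/-- The class `a` is zero locally for the Zariski topology. -/
def MotivicData.LocallyZero (X : Scheme.{0}) (i n : ℤ) (a : M.H X i n) : Prop :=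
  ∀ x : X, ∃ U : X.Opens, x ∈ U ∧ M.map U.ι i n a = 0

/-- The Zariski sheaf associated with `X ↦ H^i(X, ℤ(n))` on the category of smooth separated schemes
of finite type over the field `k` is zero. -/
def Acyclic (k : Type) [Field k] (i n : ℤ) : Prop :=
  ∀ (X : Scheme.{0}) (f : X ⟶ Spec (CommRingCat.of k)), Smooth f → IsSeparated f →
    QuasiCompact f → ∀ a : M.H X i n, M.LocallyZero X i n a

/-- `H^i(F, ℤ(n)) = 0` for all fields `F`. -/
def VanishingOnFields (i n : ℤ) : Prop :=
  ∀ (F : Type) [Field F] (a : M.Ring F i n), a = 0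

/-- A homomorphism of abelian groups is rationally surjective if it is surjective after
tensoring with `ℚ`: every element of the target has a nonzero multiple in the image. -/
def RationallySurjective {A B : Type v} [AddCommGroup A] [AddCommGroup B] (f : A →+ B) : Prop :=
  ∀ b : B, ∃ N : ℕ, N ≠ 0 ∧ ∃ a : A, f a = N • b

/-- The exact sequence
`0 → H^(i+1)(F, ℤ(n+1)) → H^(i+1)(F(t), ℤ(n+1)) → ⊕_p H^i(F[t]/(p), ℤ(n)) → 0` of Milnor type, the
sum over the irreducible polynomials (up to units): the residue maps exist, are surjective, vanish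
on the image of `H^(i+1)(F, ℤ(n+1))`, and a class all of whose residues vanish comes from
`H^(i+1)(F, ℤ(n+1))`, which embeds. -/
def MilnorSequence (F : Type) [Field F] (i n : ℤ) : Prop :=
  Function.Injective (M.pull (algebraMap F (RatFunc F)) (i + 1) (n + 1)) ∧
  ∃ res : ∀ p : Polynomial F, M.Ring (RatFunc F) (i + 1) (n + 1) →+ M.Ring (AdjoinRoot p) i n,
    (∀ p, Irreducible p → Function.Surjective (res p)) ∧
    (∀ p, Irreducible p → ∀ b, res p (M.pull (algebraMap F (RatFunc F)) (i + 1) (n + 1) b) = 0) ∧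
    ∀ a, (∀ p, Irreducible p → res p a = 0) →
      ∃ b, M.pull (algebraMap F (RatFunc F)) (i + 1) (n + 1) b = a

/-- A field. -/
structure FieldObj where
  /-- the underlying type -/
  carrier : Type
  [field : Field carrier]

attribute [instance] FieldObj.field

/-- The field `k(t_1, …, t_m)` of rational functions in `m` variables. -/
noncomputable def rationalFunctions (k : FieldObj) : ℕ → FieldObj
  | 0 => k
  | m + 1 => ⟨RatFunc (rationalFunctions k m).carrier⟩

/-- The inclusion of `k` into `k(t_1, …, t_m)`. -/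
noncomputable def constants (k : FieldObj) :
    ∀ m : ℕ, k.carrier →+* (rationalFunctions k m).carrier
  | 0 => RingHom.id k.carrier
  | m + 1 => (algebraMap (rationalFunctions k m).carrier
      (RatFunc (rationalFunctions k m).carrier)).comp (constants k m)

/-- `k` is one of the fields `ℚ`, `𝔽_p`. -/
def IsPrimeField (k : FieldObj) : Prop :=
  k = ⟨ℚ⟩ ∨ ∃ (p : ℕ) (_ : Fact p.Prime), k = ⟨ZMod p⟩

/-- Every class in `H^i(F, ℤ(n))`, `F` a field, comes from a field `E → F` which is finite and
separable over a field `k(t_1, …, t_m)`, `k` a prime field. -/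
def Continuous (F : Type) [Field F] (i n : ℤ) : Prop :=
  ∀ a : M.Ring F i n, ∃ (k : FieldObj) (m : ℕ) (E : Type) (_ : Field E)
    (_ : Algebra (rationalFunctions k m).carrier E) (φ : E →+* F) (b : M.Ring E i n),
    IsPrimeField k ∧ FiniteDimensional (rationalFunctions k m).carrier E ∧
      Algebra.IsSeparable (rationalFunctions k m).carrier E ∧ M.pull φ i n b = a

/-- The restriction of a class on `X` to a point of `X`. -/
noncomputable def MotivicData.atPoint (X : Scheme.{0}) (x : X) (i n : ℤ) :
    M.H X i n →+ M.H (Spec (X.residueField x)) i n :=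
  M.map (X.fromSpecResidueField x) i n

/-- A consequence of the Gersten resolution: a class on a smooth scheme `X` over a field is
locally zero if it vanishes at all points (including the generic points) of `X`. -/
def Gersten : Prop :=
  ∀ (k : Type) [Field k] (X : Scheme.{0}) (f : X ⟶ Spec (CommRingCat.of k)), Smooth f →
    IsSeparated f → QuasiCompact f → ∀ (i n : ℤ) (a : M.H X i n),
      (∀ x : X, M.atPoint X x i n a = 0) → M.LocallyZero X i n a

/-- Known properties of integral motivic cohomology in weights `n ≥ 1`. -/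
structure KnownProperties : Prop where
  map_id : ∀ (X : Scheme.{0}) (i n : ℤ) (a : M.H X i n), M.map (𝟙 X) i n a = a
  map_comp : ∀ (X Y Z : Scheme.{0}) (f : X ⟶ Y) (g : Y ⟶ Z) (i n : ℤ) (a : M.H Z i n),
    M.map (f ≫ g) i n a = M.map f i n (M.map g i n a)
  milnor : ∀ (F : Type) [Field F] (i n : ℤ), 1 ≤ n → MilnorSequence M F i n
  /-- by Voevodsky, Rost and Geisser-Levine -/
  torsionFree : ∀ (F : Type) [Field F] (i n : ℤ), i ≤ 0 → 1 ≤ n → ∀ (N : ℕ) (a : M.Ring F i n),
    N ≠ 0 → N • a = 0 → a = 0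
  continuous : ∀ (F : Type) [Field F] (i n : ℤ), Continuous M F i n
  gersten : Gersten M
  /-- by Quillen -/
  finite : ∀ (p : ℕ) [Fact p.Prime] (n : ℤ), 2 ≤ n → Module.rank ℤ (M.Ring (ZMod p) 1 n) = 0
  /-- by Borel -/
  rational : ∀ n : ℤ, 2 ≤ n → Module.rank ℤ (M.Ring ℚ 1 n) = if Odd n then 1 else 0

/-- Q1 (Beilinson, Soulé): `ℤ(n)` is acyclic outside `[1, n]`, for all fields `k` and `n ≥ 1`. -/
def BeilinsonSoule : Prop :=
  ∀ (k : Type) [Field k] (i n : ℤ), i ≤ 0 → 1 ≤ n → Acyclic M k i n

/-- The part of Q1 in degree `0`. -/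
def DegreeZero : Prop :=
  ∀ (k : Type) [Field k] (n : ℤ), 1 ≤ n → Acyclic M k 0 n

/-- `H^1(F, ℚ(n)) → H^1(F(t), ℚ(n))` is surjective for all fields `F` and `n ≥ 2`. -/
def Rigidity : Prop :=
  ∀ (F : Type) [Field F] (n : ℤ), 2 ≤ n →
    RationallySurjective (M.pull (algebraMap F (RatFunc F)) 1 n)

/-- For `n ≥ 2` and `m ≥ 0` the rank of `H^1(𝔽_p(t_1, …, t_m), ℤ(n))` is `0`, and the rank
of `H^1(ℚ(t_1, …, t_m), ℤ(n))` is `1` if `n` is odd and `0` if `n` is even. -/
def RankFormula : Prop :=
  ∀ (m : ℕ) (n : ℤ), 2 ≤ n →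
    (∀ (p : ℕ) [Fact p.Prime],
      Module.rank ℤ (M.Ring (rationalFunctions ⟨ZMod p⟩ m).carrier 1 n) = 0) ∧
    Module.rank ℤ (M.Ring (rationalFunctions ⟨ℚ⟩ m).carrier 1 n) = if Odd n then 1 else 0

/-- `H^(i+1)(k, ℚ(n+1)) → H^(i+1)(k(t_1, …, t_m), ℚ(n+1))` is surjective, for all prime fields `k`
and all `m`. -/
def ConstantOnRationalFunctions (i n : ℤ) : Prop :=
  ∀ (k : FieldObj) (m : ℕ), IsPrimeField k →
    RationallySurjective (M.pull (constants k m) (i + 1) (n + 1))

end Pool.Agent.X308.C
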