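import Pool.Agent.X308.C.Defs
import Mathlib.FieldTheory.PrimitiveElement
import Mathlib.LinearAlgebra.Dimension.Localization
import Mathlib.LinearAlgebra.Dimension.RankNullity

/-!
# Integral motivic cohomology of fields
-/

set_option autoImplicit false

open CategoryTheory AlgebraicGeometry

universe v

namespace Pool.Agent.X308.C

/-! ### Ranks -/

section Rank

variable {A B : Type v} [AddCommGroup A] [AddCommGroup B]

lemma rank_quot_zero_iff (f : A →+ B) :
    Module.rank ℤ (B ⧸ LinearMap.range f.toIntLinearMap) = 0 ↔ RationallySurjective f := by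
  rw [rank_eq_zero_iff]
  constructor
  · intro h b
    obtain ⟨c, hc, h1⟩ := h (Submodule.Quotient.mk b)
    rw [← Submodule.Quotient.mk_smul, Submodule.Quotient.mk_eq_zero] at h1
    obtain ⟨a, ha⟩ := h1
    have ha' : f a = c • b := ha
    refine ⟨c.natAbs, by simpa using hc, ?_⟩
    rcases Int.natAbs_eq c with h2 | h2
    · refine ⟨a, ?_⟩
      rw [ha', ← natCast_zsmul]
      congr 1
    · refine ⟨-a, ?_⟩
      rw [map_neg, ha', ← natCast_zsmul, ← neg_zsmul]
      congr 1
      omega
  · intro h x
    obtain ⟨b, rfl⟩ := Submodule.Quotient.mk_surjective _ x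
    obtain ⟨N, hN, a, ha⟩ := h b
    refine ⟨(N : ℤ), by simpa using hN, ?_⟩
    rw [← Submodule.Quotient.mk_smul, Submodule.Quotient.mk_eq_zero]
    refine ⟨a, ?_⟩
    rw [natCast_zsmul]
    exact ha

lemma rank_add_rank (f : A →+ B) (hf : Function.Injective f) :
    Module.rank ℤ (B ⧸ LinearMap.range f.toIntLinearMap) + Module.rank ℤ A = Module.rank ℤ B := by
  have h1 := Submodule.rank_quotient_add_rank (LinearMap.range f.toIntLinearMap)
  have h2 : Module.rank ℤ (LinearMap.range f.toIntLinearMap) = Module.rank ℤ A :=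
    (LinearEquiv.ofInjective f.toIntLinearMap hf).rank_eq.symm
  rwa [h2] at h1

lemma rank_eq_of_surj (f : A →+ B) (hf : Function.Injective f) (h : RationallySurjective f) :
    Module.rank ℤ B = Module.rank ℤ A := by
  have h1 := rank_add_rank f hf
  rw [(rank_quot_zero_iff f).2 h, zero_add] at h1
  exact h1.symm

lemma surj_of_rank_eq (f : A →+ B) (hf : Function.Injective f)
    (h : Module.rank ℤ B = Module.rank ℤ A) (hfin : Module.rank ℤ A < Cardinal.aleph0) :
    RationallySurjective f := by
  have h1 := rank_add_rank f hf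
  rw [h] at h1
  rw [← rank_quot_zero_iff]
  have h2 : Module.rank ℤ (B ⧸ LinearMap.range f.toIntLinearMap) + Module.rank ℤ A =
      0 + Module.rank ℤ A := by rw [h1, zero_add]
  exact Cardinal.eq_of_add_eq_add_right h2 hfin

end Rank

/-! ### Cohomology -/

variable {M : MotivicData.{v}}

lemma pull_id (hK : KnownProperties M) {R : Type} [CommRing R] (i n : ℤ) (a : M.Ring R i n) :
    M.pull (RingHom.id R) i n a = a := by
  have h1 : Spec.map (CommRingCat.ofHom (RingHom.id R)) = 𝟙 (Spec (CommRingCat.of R)) := by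
    rw [CommRingCat.ofHom_id]
    exact Spec.map_id _
  rw [MotivicData.pull, h1]
  exact hK.map_id _ i n a

lemma pull_comp (hK : KnownProperties M) {R S T : Type} [CommRing R] [CommRing S] [CommRing T]
    (φ : R →+* S) (ψ : S →+* T) (i n : ℤ) (a : M.Ring R i n) :
    M.pull (ψ.comp φ) i n a = M.pull ψ i n (M.pull φ i n a) := by
  have h1 : Spec.map (CommRingCat.ofHom (ψ.comp φ)) =
      Spec.map (CommRingCat.ofHom ψ) ≫ Spec.map (CommRingCat.ofHom φ) := by
    rw [CommRingCat.ofHom_comp]
    exact Spec.map_comp _ _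
  rw [MotivicData.pull, h1]
  exact hK.map_comp _ _ _ _ _ i n a

/-- Vanishing passes along an isomorphism of rings. -/
lemma zero_of_equiv (hK : KnownProperties M) {R S : Type} [CommRing R] [CommRing S] (e : R ≃+* S)
    {i n : ℤ} (hS : ∀ a : M.Ring S i n, a = 0) (a : M.Ring R i n) : a = 0 := by
  have h1 : M.pull (e.symm : S →+* R) i n (M.pull (e : R →+* S) i n a) = a := by
    rw [← pull_comp hK, RingEquiv.symm_comp, pull_id hK]
  have h2 : M.pull (e : R →+* S) i n a = 0 := hS _
  rw [← h1, h2, map_zero]

/-! ### Acyclicity and fields -/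

lemma opens_eq_top {F : Type} [Field F] (U : (Spec (CommRingCat.of F)).Opens)
    (x : Spec (CommRingCat.of F)) (hx : x ∈ U) : U = ⊤ := by
  have : Subsingleton (Spec (CommRingCat.of F)) :=
    inferInstanceAs (Subsingleton (PrimeSpectrum F))
  ext y
  rw [Subsingleton.elim y x]
  simp [hx]

lemma zero_of_locallyZero (hK : KnownProperties M) {F : Type} [Field F] {i n : ℤ}
    (a : M.Ring F i n) (h : M.LocallyZero (Spec (CommRingCat.of F)) i n a) : a = 0 := by
  obtain ⟨x⟩ : Nonempty (Spec (CommRingCat.of F)) :=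
    inferInstanceAs (Nonempty (PrimeSpectrum F))
  obtain ⟨U, hU, h1⟩ := h x
  obtain rfl := opens_eq_top U x hU
  have h2 := hK.map_comp _ _ _ (Spec (CommRingCat.of F)).topIso.inv
    (Spec (CommRingCat.of F)).topIso.hom i n a
  rw [Iso.inv_hom_id, hK.map_id, Scheme.topIso_hom, h1, map_zero] at h2
  exact h2

/-- A class on a field. -/
lemma field_of_acyclic (hK : KnownProperties M) {i n : ℤ}
    (h : ∀ (k : Type) [Field k], Acyclic M k i n) : VanishingOnFields M i n := by
  intro F _ a
  exact zero_of_locallyZero hK a (h F _ (𝟙 _) inferInstance inferInstance inferInstance a)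

lemma acyclic_of_field (hK : KnownProperties M) {i n : ℤ} (h : VanishingOnFields M i n)
    (k : Type) [Field k] : Acyclic M k i n := by
  intro X f h1 h2 h3 a
  refine hK.gersten k X f h1 h2 h3 i n a fun x => ?_
  exact h (X.residueField x) _

/-! ### The degree -/

/-- Vanishing in degree `i + 1`, weight `n + 1` implies vanishing in degree `i`, weight `n`. -/
lemma shift (hK : KnownProperties M) {i n : ℤ} (hn : 1 ≤ n)
    (h : VanishingOnFields M (i + 1) (n + 1)) : VanishingOnFields M i n := by
  intro F _ a
  obtain ⟨-, res, h1, -, -⟩ := hK.milnor F i n hn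
  have hX : Irreducible (Polynomial.X : Polynomial F) := Polynomial.irreducible_X
  have : Fact (Irreducible (Polynomial.X : Polynomial F)) := ⟨hX⟩
  have e : F ≃+* AdjoinRoot (Polynomial.X : Polynomial F) := by
    have h1 := (Polynomial.quotientSpanXSubCAlgEquiv (0 : F)).toRingEquiv.symm
    rw [map_zero, sub_zero] at h1
    exact h1
  refine zero_of_equiv hK e (fun c => ?_) a
  obtain ⟨b, rfl⟩ := h1 _ hX c
  rw [h (RatFunc F) b, map_zero]

lemma vanishing_all (hK : KnownProperties M) (h : ∀ n : ℤ, 1 ≤ n → VanishingOnFields M 0 n)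
    (m : ℕ) : ∀ n : ℤ, 1 ≤ n → VanishingOnFields M (-m) n := by
  induction m with
  | zero =>
    intro n hn
    simpa using h n hn
  | succ m ih =>
    intro n hn
    apply shift hK hn
    have h1 := ih (n + 1) (by omega)
    have e : -((m + 1 : ℕ) : ℤ) + 1 = -m := by
      push_cast
      ring
    rw [e]
    exact h1

/-! ### Rational function fields -/

/-- If `H^i` vanishes on fields, then `H^(i+1)(F)` surjects onto `H^(i+1)(F(t))`. -/
lemma surj_of_vanishing (hK : KnownProperties M) {i n : ℤ} (hn : 1 ≤ n)
    (h : VanishingOnFields M i n) (F : Type) [Field F] :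
    RationallySurjective (M.pull (algebraMap F (RatFunc F)) (i + 1) (n + 1)) := by
  obtain ⟨-, res, -, -, h3⟩ := hK.milnor F i n hn
  intro a
  refine ⟨1, one_ne_zero, ?_⟩
  rw [one_smul]
  refine h3 a fun p hp => ?_
  have : Fact (Irreducible p) := ⟨hp⟩
  exact h (AdjoinRoot p) _

lemma constants_succ_pull (hK : KnownProperties M) (k : FieldObj) (m : ℕ) (i n : ℤ)
    (a : M.Ring k.carrier i n) :
    M.pull (constants k (m + 1)) i n a =
      M.pull (algebraMap (rationalFunctions k m).carrier
        (RatFunc (rationalFunctions k m).carrier)) i n (M.pull (constants k m) i n a) :=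
  pull_comp hK (constants k m) _ i n a

lemma constants_surj (hK : KnownProperties M) {i n : ℤ}
    (h : ∀ (F : Type) [Field F], RationallySurjective (M.pull (algebraMap F (RatFunc F)) i n))
    (k : FieldObj) (m : ℕ) : RationallySurjective (M.pull (constants k m) i n) := by
  induction m with
  | zero =>
    intro b
    refine ⟨1, one_ne_zero, b, ?_⟩
    rw [one_smul]
    exact pull_id hK i n b
  | succ m ih =>
    intro b
    obtain ⟨N, hN, c, hc⟩ := h (rationalFunctions k m).carrier b
    obtain ⟨N', hN', d, hd⟩ := ih c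
    refine ⟨N' * N, mul_ne_zero hN' hN, d, ?_⟩
    rw [constants_succ_pull hK, hd, map_nsmul, hc, mul_smul]
    rfl

/-- Conversely: if all classes on the rational function fields over prime fields are constant
then `H^i` vanishes on fields. -/
lemma vanishing_of_constants (hK : KnownProperties M) {i n : ℤ} (hi : i ≤ 0) (hn : 1 ≤ n)
    (h : ConstantOnRationalFunctions M i n) : VanishingOnFields M i n := by
  intro F _ a
  obtain ⟨k, m, E, _, _, φ, b, hk, hE, hs, rfl⟩ := hK.continuous F i n a
  suffices hb : b = 0 by rw [hb, map_zero]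
  obtain ⟨θ, hθ⟩ := Field.exists_primitive_element (rationalFunctions k m).carrier E
  have hint : IsIntegral (rationalFunctions k m).carrier θ := IsIntegral.of_finite _ θ
  have e1 := IntermediateField.adjoinRootEquivAdjoin (rationalFunctions k m).carrier hint
  rw [hθ] at e1
  have e : E ≃+* AdjoinRoot (minpoly (rationalFunctions k m).carrier θ) :=
    (e1.trans IntermediateField.topEquiv).symm.toRingEquiv
  refine zero_of_equiv hK e (fun c => ?_) b
  obtain ⟨-, res, h3, h4, -⟩ := hK.milnor (rationalFunctions k m).carrier i n hn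
  obtain ⟨d, rfl⟩ := h3 _ (minpoly.irreducible hint) c
  obtain ⟨N, hN, f, hf⟩ := h k (m + 1) hk d
  have : Fact (Irreducible (minpoly (rationalFunctions k m).carrier θ)) :=
    ⟨minpoly.irreducible hint⟩
  refine hK.torsionFree (AdjoinRoot (minpoly (rationalFunctions k m).carrier θ)) i n hi hn N _
    hN ?_
  refine (map_nsmul (res _) N d).symm.trans ?_
  refine (congrArg (res _) (hf.symm.trans (constants_succ_pull hK k m _ _ f))).trans ?_
  exact h4 _ (minpoly.irreducible hint) _

/-- The part of Q1 of a fixed degree and weight. -/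
theorem fixed_iff (hK : KnownProperties M) {i n : ℤ} (hi : i ≤ 0) (hn : 1 ≤ n) :
    List.TFAE [∀ (k : Type) [Field k], Acyclic M k i n, VanishingOnFields M i n,
      ∀ (F : Type) [Field F],
        RationallySurjective (M.pull (algebraMap F (RatFunc F)) (i + 1) (n + 1)),
      ConstantOnRationalFunctions M i n] := by
  tfae_have 1 → 2 := field_of_acyclic hK
  tfae_have 2 → 1 := fun h k _ => acyclic_of_field hK h k
  tfae_have 2 → 3 := fun h F _ => surj_of_vanishing hK hn h F
  tfae_have 3 → 4 := fun h k m _ => constants_surj hK h k m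
  tfae_have 4 → 2 := vanishing_of_constants hK hi hn
  tfae_finish

/-! ### The rank formula -/

lemma constants_injective (hK : KnownProperties M) (k : FieldObj) (m : ℕ) (i n : ℤ)
    (hn : 2 ≤ n) : Function.Injective (M.pull (constants k m) i n) := by
  obtain ⟨i, rfl⟩ : ∃ i' : ℤ, i = i' + 1 := ⟨i - 1, by ring⟩
  obtain ⟨n, rfl⟩ : ∃ n' : ℤ, n = n' + 1 := ⟨n - 1, by ring⟩
  induction m with
  | zero =>
    intro a b hab
    have h1 : M.pull (constants k 0) (i + 1) (n + 1) a = a := pull_id hK _ _ a
    have h2 : M.pull (constants k 0) (i + 1) (n + 1) b = b := pull_id hK _ _ b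
    rwa [h1, h2] at hab
  | succ m ih =>
    intro a b hab
    rw [constants_succ_pull hK, constants_succ_pull hK] at hab
    exact ih ((hK.milnor (rationalFunctions k m).carrier i n (by omega)).1 hab)

lemma rank_constants_iff (hK : KnownProperties M) (k : FieldObj) (m : ℕ) (n : ℤ) (hn : 2 ≤ n)
    (hfin : Module.rank ℤ (M.Ring k.carrier 1 n) < Cardinal.aleph0) :
    Module.rank ℤ (M.Ring (rationalFunctions k m).carrier 1 n) =
      Module.rank ℤ (M.Ring k.carrier 1 n) ↔
    RationallySurjective (M.pull (constants k m) 1 n) :=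
  ⟨fun h => surj_of_rank_eq _ (constants_injective hK k m 1 n hn) h hfin,
    fun h => rank_eq_of_surj _ (constants_injective hK k m 1 n hn) h⟩

lemma ite_lt (n : ℤ) : (if Odd n then 1 else 0 : Cardinal.{v}) < Cardinal.aleph0 := by
  split_ifs
  · exact Cardinal.one_lt_aleph0
  · exact Cardinal.aleph0_pos

lemma rankFormula_iff (hK : KnownProperties M) :
    RankFormula M ↔ ∀ n : ℤ, 1 ≤ n → ConstantOnRationalFunctions M 0 n := by
  constructor
  · intro h n hn k m hk
    obtain ⟨h1, h2⟩ := h m (n + 1) (by omega)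
    rw [zero_add]
    rcases hk with rfl | ⟨p, hp, rfl⟩
    · have h3 := hK.rational (n + 1) (by omega)
      refine (rank_constants_iff hK ⟨ℚ⟩ m (n + 1) (by omega) ?_).1 ?_
      · exact h3.trans_lt (ite_lt _)
      · rw [h2]
        exact h3.symm
    · have h3 := hK.finite p (n + 1) (by omega)
      refine (rank_constants_iff hK ⟨ZMod p⟩ m (n + 1) (by omega) ?_).1 ?_
      · exact h3.trans_lt Cardinal.aleph0_pos
      · rw [h1 p]
        exact h3.symm
  · intro h m n hn
    obtain ⟨n, rfl⟩ : ∃ n' : ℤ, n = n' + 1 := ⟨n - 1, by ring⟩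
    have h0 := h n (by omega)
    refine ⟨fun p _ => ?_, ?_⟩
    · have h1 := h0 ⟨ZMod p⟩ m (Or.inr ⟨p, inferInstance, rfl⟩)
      rw [zero_add] at h1
      have h3 := hK.finite p (n + 1) (by omega)
      have h4 := (rank_constants_iff hK ⟨ZMod p⟩ m (n + 1) (by omega)
        (h3.trans_lt Cardinal.aleph0_pos)).2 h1
      exact h4.trans h3
    · have h1 := h0 ⟨ℚ⟩ m (Or.inl rfl)
      rw [zero_add] at h1
      have h3 := hK.rational (n + 1) (by omega)
      have h4 := (rank_constants_iff hK ⟨ℚ⟩ m (n + 1) (by omega) (h3.trans_lt (ite_lt _))).2 h1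
      exact h4.trans h3

/-- **The Beilinson-Soulé conjecture and the motivic cohomology of rational function fields in
degree one.** -/
theorem beilinsonSoule_iff (hK : KnownProperties M) :
    List.TFAE [BeilinsonSoule M, DegreeZero M, Rigidity M, RankFormula M] := by
  have key : DegreeZero M → BeilinsonSoule M := by
    intro h k _ i n hi hn
    obtain ⟨m, rfl⟩ : ∃ m : ℕ, i = -m := ⟨(-i).toNat, by
      rw [Int.toNat_of_nonneg (by omega)]
      ring⟩
    refine acyclic_of_field hK (vanishing_all hK (fun n hn => ?_) m n hn) k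
    exact field_of_acyclic hK fun k _ => h k n hn
  tfae_have 1 → 2 := fun h k _ n hn => h k 0 n le_rfl hn
  tfae_have 2 → 1 := key
  tfae_have 2 → 3 := by
    intro h F _ n hn
    obtain ⟨n, rfl⟩ : ∃ n' : ℤ, n = n' + 1 := ⟨n - 1, by ring⟩
    have h1 := surj_of_vanishing hK (i := 0) (by omega : 1 ≤ n)
      (field_of_acyclic hK fun k _ => h k n (by omega)) F
    rwa [zero_add] at h1
  tfae_have 3 → 4 := by
    intro h
    rw [rankFormula_iff hK]
    intro n hn k m _
    rw [zero_add]
    exact constants_surj hK (fun F _ => h F (n + 1) (by omega)) k m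
  tfae_have 4 → 2 := by
    intro h k _ n hn
    rw [rankFormula_iff hK] at h
    exact acyclic_of_field hK (vanishing_of_constants hK le_rfl hn (h n hn)) k
  tfae_finish

end Pool.Agent.X308.C
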